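import Mathlib

set_option autoImplicit false

open Finset

namespace Pool.Agent.Q156.HN

lemma cb_sq (m : ℕ) : (Nat.centralBinom m) ^ 2 * (3 * m + 1) ≤ 16 ^ m := by
  induction m with
  | zero => simp
  | succ m ih =>
    have h := Nat.succ_mul_centralBinom_succ m
    -- (m+1) cb(m+1) = 2 (2m+1) cb m
    have h2 : (m + 1) ^ 2 * (Nat.centralBinom (m + 1) ^ 2 * (3 * (m + 1) + 1)) ≤
        (m + 1) ^ 2 * 16 ^ (m + 1) := by
      have e1 : (m + 1) ^ 2 * (Nat.centralBinom (m + 1) ^ 2 * (3 * (m + 1) + 1)) =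
          ((m + 1) * Nat.centralBinom (m + 1)) ^ 2 * (3 * m + 4) := by ring
      rw [e1, h]
      have e2 : (2 * (2 * m + 1) * Nat.centralBinom m) ^ 2 * (3 * m + 4) =
          4 * Nat.centralBinom m ^ 2 * ((2 * m + 1) ^ 2 * (3 * m + 4)) := by ring
      rw [e2]
      have e3 : (2 * m + 1) ^ 2 * (3 * m + 4) ≤ 4 * (m + 1) ^ 2 * (3 * m + 1) := by nlinarith
      calc 4 * Nat.centralBinom m ^ 2 * ((2 * m + 1) ^ 2 * (3 * m + 4))
          ≤ 4 * Nat.centralBinom m ^ 2 * (4 * (m + 1) ^ 2 * (3 * m + 1)) :=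
            Nat.mul_le_mul_left _ e3
        _ = 16 * (m + 1) ^ 2 * (Nat.centralBinom m ^ 2 * (3 * m + 1)) := by ring
        _ ≤ 16 * (m + 1) ^ 2 * 16 ^ m := Nat.mul_le_mul_left _ ih
        _ = _ := by ring
    exact Nat.le_of_mul_le_mul_left h2 (by positivity)

lemma mid_sq (n : ℕ) : 3 * n * (n.choose (n / 2)) ^ 2 ≤ 2 * 4 ^ n := by
  rcases Nat.even_or_odd' n with ⟨m, rfl | rfl⟩
  · have h := cb_sq m
    rw [Nat.centralBinom] at h
    have e : 2 * m / 2 = m := by omega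
    rw [e]
    have e2 : (4 : ℕ) ^ (2 * m) = 16 ^ m := by rw [pow_mul]; norm_num
    rw [e2]
    nlinarith [Nat.zero_le ((2 * m).choose m ^ 2)]
  · have h := cb_sq (m + 1)
    rw [Nat.centralBinom] at h
    have e : (2 * m + 1) / 2 = m := by omega
    rw [e]
    have e1 : (2 * (m + 1)).choose (m + 1) = 2 * (2 * m + 1).choose m := by
      have a : (2 * (m + 1)) = (2 * m + 1) + 1 := by ring
      rw [a, Nat.choose_succ_succ, Nat.choose_symm_half]
      ring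
    rw [e1] at h
    have e2 : (4 : ℕ) ^ (2 * m + 1) = 4 * 16 ^ m := by rw [pow_succ, pow_mul]; norm_num; ring
    rw [e2]
    have e3 : (16 : ℕ) ^ (m + 1) = 16 * 16 ^ m := by ring
    rw [e3] at h
    nlinarith [Nat.zero_le ((2 * m + 1).choose m ^ 2)]

lemma mid_real (n : ℕ) (hn : 1 ≤ n) :
    ((n.choose (n / 2) : ℕ) : ℝ) ≤ 2 ^ n * (41 / 50) / Real.sqrt n := by
  have h := mid_sq n
  have h' : (3 * (n : ℝ)) * ((n.choose (n / 2) : ℕ) : ℝ) ^ 2 ≤ 2 * 4 ^ n := by exact_mod_cast h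
  have hn0 : (0 : ℝ) < n := by exact_mod_cast hn
  have hs : 0 < Real.sqrt n := Real.sqrt_pos.2 hn0
  rw [le_div_iff₀ hs]
  have hs2 : Real.sqrt n ^ 2 = n := Real.sq_sqrt hn0.le
  have e4 : (4 : ℝ) ^ n = (2 ^ n) ^ 2 := by rw [← pow_mul, mul_comm, pow_mul]; norm_num
  have h2 : (((n.choose (n / 2) : ℕ) : ℝ) * Real.sqrt n) ^ 2 ≤ (2 ^ n * (41 / 50)) ^ 2 := by
    rw [mul_pow, hs2, mul_pow, ← e4]
    have : (0 : ℝ) < 4 ^ n := by positivity
    nlinarith
  exact (abs_le_of_sq_le_sq' h2 (by positivity)).2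

lemma key_ineq (n d : ℕ) (hn : 400 ≤ n) (hd : (d : ℝ) ≤ Real.sqrt n / 8) :
    (((2 * d + 1) * n.choose (n / 2) : ℕ) : ℝ) ≤ 2 ^ n / 4 := by
  have h := mid_real n (by omega)
  have hs : (20 : ℝ) ≤ Real.sqrt n := by
    rw [Real.le_sqrt (by norm_num) (by positivity)]
    have : (400 : ℝ) ≤ n := by exact_mod_cast hn
    linarith
  have hs0 : 0 < Real.sqrt n := by linarith
  push_cast
  calc (2 * (d : ℝ) + 1) * ((n.choose (n / 2) : ℕ) : ℝ)
      ≤ (Real.sqrt n * (3 / 10)) * (2 ^ n * (41 / 50) / Real.sqrt n) := by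
        refine mul_le_mul (by linarith) h (by positivity) (by positivity)
    _ = 2 ^ n * (123 / 500) := by field_simp; ring
    _ ≤ 2 ^ n / 4 := by
        have : (0 : ℝ) < 2 ^ n := by positivity
        linarith

end Pool.Agent.Q156.HN
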