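import Mathlib

set_option autoImplicit false

open Finset

namespace Pool.Agent.Q156.HN

/-- The vertices of the `n`-dimensional hypercube. -/
abbrev V (n : ℕ) := Fin n → Bool

/-- The neighbours of `v`: the vertices differing from `v` in exactly one coordinate. -/
def N {n : ℕ} (v : V n) : Finset (V n) :=
  univ.filter fun u => (univ.filter fun i => u i ≠ v i).card = 1

/-- All realisations: families `(S_v)` with `S_v ⊆ N(v)` for every vertex `v`. -/
def fam (n : ℕ) : Finset (V n → Finset (V n)) :=
  Fintype.piFinset fun v => (N v).powerset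

/-- The discrepancy of a family of subsets of the hypercube. -/
noncomputable def disc {n : ℕ} (S : V n → Finset (V n)) : ℕ :=
  sInf {d : ℕ | ∃ χ : V n → ℤ, (∀ x, χ x = 1 ∨ χ x = -1) ∧ ∀ v, |∑ x ∈ S v, χ x| ≤ (d : ℤ)}

open Classical in
/-- The probability of an event, when the sets `S_v ⊆ N(v)` are independent and uniform. -/
noncomputable def prob (n : ℕ) (E : (V n → Finset (V n)) → Prop) : ℝ :=
  ((fam n).filter E).card / (fam n).card

end Pool.Agent.Q156.HN
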