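import Pool.Agent.Q156.HN.Main
import Pool.Agent.Q156.HN.Bin
import Pool.Agent.Results.MP_e8ee11_co.SparseBeckFiala

set_option autoImplicit false

open Finset Filter Topology

namespace Pool.Agent.Q156.HN

lemma upper : ∃ C : ℝ, 0 < C ∧ ∀ n : ℕ, 1 ≤ n → ∀ S ∈ fam n, (disc S : ℝ) ≤ C * Real.sqrt n := by
  classical
  obtain ⟨C, hC, h⟩ := Pool.Agent.Results.MP_e8ee11_co.SparseBeckFiala.result
  refine ⟨C * 2, by positivity, ?_⟩
  intro n hn S hS
  rw [mem_fam] at hS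
  let e : V n ≃ Fin (Fintype.card (V n)) := Fintype.equivFin _
  obtain ⟨χ, hχ1, hχ2⟩ := h (Fintype.card (V n)) (Fintype.card (V n)) n n
    (fun j => (S (e.symm j)).map e.toEmbedding)
    (by
      intro i
      have hh : (univ.filter fun j : Fin (Fintype.card (V n)) =>
          i ∈ (S (e.symm j)).map e.toEmbedding) ⊆ (N (e.symm i)).map e.toEmbedding := by
        intro j hj
        simp only [mem_filter, mem_univ, true_and, mem_map_equiv] at hj ⊢
        exact (mem_N_comm _ _).1 (hS _ hj)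
      calc _ ≤ _ := card_le_card hh
        _ = n := by rw [card_map, N_card])
    (by
      intro j
      rw [card_map]
      exact (card_le_card (hS _)).trans (N_card _).le)
  have hn1 : (1 : ℝ) ≤ n := by exact_mod_cast hn
  have hpow : (n : ℝ) ^ (2 / 3 : ℝ) ≤ n := by
    calc (n : ℝ) ^ (2 / 3 : ℝ) ≤ (n : ℝ) ^ (1 : ℝ) :=
          Real.rpow_le_rpow_of_exponent_le hn1 (by norm_num)
      _ = n := Real.rpow_one _
  have hb : ∀ v : V n, ((|∑ x ∈ S v, χ (e x)| : ℤ) : ℝ) ≤ C * 2 * Real.sqrt n := by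
    intro v
    have h2 := hχ2 (e v)
    simp only [Equiv.symm_apply_apply, card_map, sum_map, Equiv.coe_toEmbedding] at h2
    refine h2.trans ?_
    rw [mul_assoc]
    refine mul_le_mul_of_nonneg_left ?_ hC.le
    have hc : ((S v).card : ℝ) ≤ n := by
      exact_mod_cast (card_le_card (hS v)).trans (N_card v).le
    have h4 : (2 : ℝ) * Real.sqrt n = Real.sqrt (4 * n) := by
      rw [Real.sqrt_mul (by norm_num), show (4 : ℝ) = 2 ^ 2 by norm_num, Real.sqrt_sq (by norm_num)]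
    rw [h4]
    exact Real.sqrt_le_sqrt (by linarith)
  have hfl : disc S ≤ ⌊C * 2 * Real.sqrt n⌋₊ := by
    refine disc_le S _ (fun x => χ (e x)) (fun x => hχ1 _) ?_
    intro v
    have h3 := hb v
    have h5 : (|∑ x ∈ S v, χ (e x)|).toNat ≤ ⌊C * 2 * Real.sqrt n⌋₊ := by
      rw [Nat.le_floor_iff (by positivity)]
      have : (((|∑ x ∈ S v, χ (e x)|).toNat : ℤ) : ℝ) = ((|∑ x ∈ S v, χ (e x)| : ℤ) : ℝ) := by
        rw [Int.toNat_of_nonneg (abs_nonneg _)]
      have h6 : (((|∑ x ∈ S v, χ (e x)|).toNat : ℕ) : ℝ) = ((|∑ x ∈ S v, χ (e x)| : ℤ) : ℝ) := by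
        rw [← this]; norm_cast
      rw [h6]; exact h3
    have h7 : (|∑ x ∈ S v, χ (e x)| : ℤ) = ((|∑ x ∈ S v, χ (e x)|).toNat : ℤ) :=
      (Int.toNat_of_nonneg (abs_nonneg _)).symm
    rw [h7]
    exact_mod_cast h5
  calc (disc S : ℝ) ≤ (⌊C * 2 * Real.sqrt n⌋₊ : ℝ) := by exact_mod_cast hfl
    _ ≤ _ := Nat.floor_le (by positivity)

lemma small_prob (n : ℕ) (hn : 400 ≤ n) :
    prob n (fun S => ¬ Real.sqrt n / 8 ≤ (disc S : ℝ)) ≤ (1 / 2) ^ (2 ^ n) := by
  classical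
  have hpos : (0 : ℝ) < ((fam n).card : ℝ) := by
    rw [fam_card]; positivity
  unfold prob
  rw [div_le_iff₀ hpos]
  set d := ⌊Real.sqrt n / 8⌋₊ with hd
  have hd1 : (d : ℝ) ≤ Real.sqrt n / 8 := Nat.floor_le (by positivity)
  have hsub : ((fam n).filter fun S => ¬ Real.sqrt n / 8 ≤ (disc S : ℝ)) ⊆
      ((fam n).filter fun S => disc S ≤ d) := by
    intro S hS
    simp only [mem_filter, not_le] at hS ⊢
    exact ⟨hS.1, Nat.le_floor hS.2.le⟩
  have h1 : (((fam n).filter fun S => ¬ Real.sqrt n / 8 ≤ (disc S : ℝ)).card : ℝ) ≤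
      ((2 ^ (2 ^ n) * ((2 * d + 1) * n.choose (n / 2)) ^ (2 ^ n) : ℕ) : ℝ) := by
    exact_mod_cast (card_le_card hsub).trans (union_count n d)
  have h2 := key_ineq n d hn hd1
  have h3 : ((2 ^ (2 ^ n) * ((2 * d + 1) * n.choose (n / 2)) ^ (2 ^ n) : ℕ) : ℝ) ≤
      2 ^ (2 ^ n) * (2 ^ n / 4) ^ (2 ^ n) := by
    rw [Nat.cast_mul, Nat.cast_pow, Nat.cast_pow]
    push_cast at h2 ⊢
    refine mul_le_mul_of_nonneg_left ?_ (by positivity)
    exact pow_le_pow_left₀ (by positivity) h2 _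
  refine (le_of_eq_of_le (by congr!) (h1.trans h3)).trans (le_of_eq ?_)
  rw [fam_card]
  push_cast
  rw [← mul_pow, ← mul_pow]
  congr 1
  ring

lemma prob_compl (n : ℕ) (E : (V n → Finset (V n)) → Prop) :
    prob n E = 1 - prob n (fun S => ¬ E S) := by
  classical
  have hpos : (0 : ℝ) < ((fam n).card : ℝ) := by
    rw [fam_card]; positivity
  unfold prob
  rw [eq_sub_iff_add_eq, ← add_div, div_eq_one_iff_eq hpos.ne']
  norm_cast
  convert card_filter_add_card_filter_not (s := fam n) E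

lemma large_prob (n : ℕ) (hn : 400 ≤ n) :
    1 - (1 / 2 : ℝ) ^ (2 ^ n) ≤ prob n (fun S => Real.sqrt n / 8 ≤ (disc S : ℝ)) := by
  rw [prob_compl]
  linarith [small_prob n hn]

lemma prob_le_one (n : ℕ) (E : (V n → Finset (V n)) → Prop) : prob n E ≤ 1 := by
  classical
  have hpos : (0 : ℝ) < ((fam n).card : ℝ) := by
    rw [fam_card]; positivity
  unfold prob
  rw [div_le_one hpos]
  exact_mod_cast card_le_card (filter_subset _ _)

lemma prob_congr (n : ℕ) (E F : (V n → Finset (V n)) → Prop)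
    (h : ∀ S ∈ fam n, E S ↔ F S) : prob n E = prob n F := by
  classical
  unfold prob
  rw [filter_congr h]

theorem main : ∃ C : ℝ, 0 < C ∧
    (∀ n : ℕ, 1 ≤ n → ∀ S ∈ fam n, (disc S : ℝ) ≤ C * Real.sqrt n) ∧
    (∀ n : ℕ, 400 ≤ n →
      1 - (1 / 2 : ℝ) ^ (2 ^ n) ≤ prob n (fun S => Real.sqrt n / 8 ≤ (disc S : ℝ))) ∧
    Tendsto (fun n : ℕ => prob n (fun S =>
      Real.sqrt n / 8 ≤ (disc S : ℝ) ∧ (disc S : ℝ) ≤ C * Real.sqrt n)) atTop (𝓝 1) := by
  obtain ⟨C, hC, h⟩ := upper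
  refine ⟨C, hC, h, large_prob, ?_⟩
  have h0 : Tendsto (fun n : ℕ => 1 - (1 / 2 : ℝ) ^ (2 ^ n)) atTop (𝓝 1) := by
    have h1 : Tendsto (fun n : ℕ => (1 / 2 : ℝ) ^ n) atTop (𝓝 0) :=
      tendsto_pow_atTop_nhds_zero_of_lt_one (by norm_num) (by norm_num)
    have h2 : Tendsto (fun n : ℕ => 2 ^ n) atTop atTop :=
      tendsto_pow_atTop_atTop_of_one_lt (by norm_num)
    have h3 := (h1.comp h2).const_sub 1
    simpa using h3
  refine tendsto_of_tendsto_of_tendsto_of_le_of_le' h0 tendsto_const_nhds ?_ ?_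
  · filter_upwards [eventually_ge_atTop 400] with n hn
    refine (large_prob n hn).trans (le_of_eq ?_)
    refine prob_congr n _ _ fun S hS => ?_
    exact ⟨fun h1 => ⟨h1, h n (by omega) S hS⟩, fun h1 => h1.1⟩
  · exact Eventually.of_forall fun n => prob_le_one _ _

end Pool.Agent.Q156.HN
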