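import Pool.Agent.Q156.HN.Defs

set_option autoImplicit false

open Finset

namespace Pool.Agent.Q156.HN

lemma disc_spec {n : ℕ} (S : V n → Finset (V n)) :
    ∃ χ : V n → ℤ, (∀ x, χ x = 1 ∨ χ x = -1) ∧ ∀ v, |∑ x ∈ S v, χ x| ≤ (disc S : ℤ) := by
  have hne : {d : ℕ | ∃ χ : V n → ℤ, (∀ x, χ x = 1 ∨ χ x = -1) ∧
      ∀ v, |∑ x ∈ S v, χ x| ≤ (d : ℤ)}.Nonempty := by
    refine ⟨Fintype.card (V n), fun _ => 1, fun _ => Or.inl rfl, fun v => ?_⟩
    simp only [sum_const, nsmul_eq_mul, mul_one, Nat.abs_cast, Nat.cast_le]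
    exact card_le_univ _
  exact Nat.sInf_mem hne

lemma disc_le {n : ℕ} (S : V n → Finset (V n)) (d : ℕ) (χ : V n → ℤ)
    (h1 : ∀ x, χ x = 1 ∨ χ x = -1) (h2 : ∀ v, |∑ x ∈ S v, χ x| ≤ (d : ℤ)) : disc S ≤ d :=
  Nat.sInf_le ⟨χ, h1, h2⟩

/-- the neighbour of `v` in direction `i` -/
def nb {n : ℕ} (v : V n) (i : Fin n) : V n := Function.update v i (!v i)

lemma nb_inj {n : ℕ} (v : V n) : Function.Injective (nb v) := by
  intro i j h
  by_contra hij
  have := congrFun h i
  simp [nb, hij] at this

lemma N_eq {n : ℕ} (v : V n) : N v = univ.image (nb v) := by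
  ext u
  simp only [N, mem_filter, mem_univ, true_and, mem_image]
  constructor
  · intro h
    obtain ⟨i, hi⟩ := card_eq_one.1 h
    refine ⟨i, ?_⟩
    funext j
    by_cases hj : j = i
    · subst hj
      have : u j ≠ v j := by
        have : j ∈ univ.filter (fun i => u i ≠ v i) := by rw [hi]; simp
        simpa using this
      simp only [nb, Function.update_self]
      cases hu : u j <;> cases hv : v j <;> simp_all
    · have : ¬ (j ∈ univ.filter (fun i => u i ≠ v i)) := by rw [hi]; simpa using hj
      simp only [mem_filter, mem_univ, true_and, not_not] at this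
      simp [nb, Function.update_of_ne hj, this]
  · rintro ⟨i, rfl⟩
    rw [card_eq_one]
    refine ⟨i, ?_⟩
    ext j
    simp only [mem_filter, mem_univ, true_and, mem_singleton]
    by_cases hj : j = i
    · subst hj; simp [nb]
    · simp [nb, Function.update_of_ne hj, hj]

lemma N_card {n : ℕ} (v : V n) : (N v).card = n := by
  rw [N_eq, card_image_of_injective _ (nb_inj v)]; simp

lemma mem_N_comm {n : ℕ} (u v : V n) : u ∈ N v ↔ v ∈ N u := by
  simp only [N, mem_filter, mem_univ, true_and, ne_comm]

lemma mem_fam {n : ℕ} {S : V n → Finset (V n)} : S ∈ fam n ↔ ∀ v, S v ⊆ N v := by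
  simp [fam, Fintype.mem_piFinset]

lemma fam_card (n : ℕ) : (fam n).card = (2 ^ n) ^ (2 ^ n) := by
  simp [fam, Fintype.card_piFinset, N_card]

/-- Sums over random subsets: number of subsets of `M` with signed sum `s` is at most the central
binomial coefficient of `|M|`. -/
lemma sub_count {α : Type*} [DecidableEq α] (M : Finset α) (χ : α → ℤ)
    (h1 : ∀ x, χ x = 1 ∨ χ x = -1) (s : ℤ) :
    (M.powerset.filter fun T => ∑ x ∈ T, χ x = s).card ≤ M.card.choose (M.card / 2) := by
  classical
  -- switch the negative elements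
  set B := M.filter fun x => χ x = -1 with hB
  have key : ∀ T ⊆ M, ((symmDiff T B).card : ℤ) = ∑ x ∈ T, χ x + B.card := by
    intro T hT
    have e1 : (symmDiff T B) = (T \ B) ∪ (B \ T) := rfl
    have hd : Disjoint (T \ B) (B \ T) := by
      rw [disjoint_left]; intro x hx hy
      simp only [mem_sdiff] at hx hy; exact hx.2 hy.1
    rw [e1, card_union_of_disjoint hd]
    have e2 : ∑ x ∈ T, χ x = ((T \ B).card : ℤ) - ((T ∩ B).card : ℤ) := by
      rw [← sum_sdiff (inter_subset_left : T ∩ B ⊆ T)]
      have e3 : T \ (T ∩ B) = T \ B := by ext x; simp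
      rw [e3]
      have a1 : ∑ x ∈ T \ B, χ x = ((T \ B).card : ℤ) := by
        rw [sum_congr rfl (g := fun _ => (1 : ℤ))]
        · simp
        · intro x hx
          simp only [hB, mem_sdiff, mem_filter, not_and] at hx
          rcases h1 x with h | h
          · exact h
          · exact absurd h (hx.2 (hT hx.1))
      have a2 : ∑ x ∈ T ∩ B, χ x = -((T ∩ B).card : ℤ) := by
        rw [sum_congr rfl (g := fun _ => (-1 : ℤ))]
        · simp
        · intro x hx
          simp only [hB, mem_inter, mem_filter] at hx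
          exact hx.2.2
      rw [a1, a2]; ring
    have e4 : B.card = (B \ T).card + (T ∩ B).card := by
      rw [inter_comm, card_sdiff_add_card_inter]
    rw [e2, e4]; push_cast; ring
  have hBM : B ⊆ M := filter_subset _ _
  have hinj : Set.InjOn (fun T => symmDiff T B)
      (M.powerset.filter fun T => ∑ x ∈ T, χ x = s : Finset (Finset α)) := by
    intro T _ T' _ h
    exact symmDiff_left_injective B h
  rw [← card_image_of_injOn hinj]
  calc _ ≤ (M.powersetCard (s + B.card).toNat).card := by
        refine card_le_card ?_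
        intro U hU
        simp only [mem_image, mem_filter, mem_powerset] at hU
        obtain ⟨T, ⟨hT, hs⟩, rfl⟩ := hU
        rw [mem_powersetCard]
        refine ⟨?_, ?_⟩
        · intro x hx
          rw [mem_symmDiff] at hx
          rcases hx with hx | hx
          · exact hT hx.1
          · exact hBM hx.1
        · have := key T hT
          rw [hs] at this
          omega
    _ = M.card.choose (s + B.card).toNat := card_powersetCard _ _
    _ ≤ _ := Nat.choose_le_middle _ _

lemma sub_count_abs {α : Type*} [DecidableEq α] (M : Finset α) (χ : α → ℤ)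
    (h1 : ∀ x, χ x = 1 ∨ χ x = -1) (d : ℕ) :
    (M.powerset.filter fun T => |∑ x ∈ T, χ x| ≤ (d : ℤ)).card ≤
      (2 * d + 1) * M.card.choose (M.card / 2) := by
  classical
  have hsub : (M.powerset.filter fun T => |∑ x ∈ T, χ x| ≤ (d : ℤ)) ⊆
      (Finset.Icc (-(d : ℤ)) d).biUnion
        fun s => M.powerset.filter fun T => ∑ x ∈ T, χ x = s := by
    intro T hT
    simp only [mem_filter] at hT
    simp only [mem_biUnion, mem_Icc, mem_filter]
    exact ⟨_, abs_le.1 hT.2, hT.1, rfl⟩
  calc _ ≤ _ := card_le_card hsub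
    _ ≤ ∑ s ∈ Finset.Icc (-(d : ℤ)) d, (M.powerset.filter fun T => ∑ x ∈ T, χ x = s).card :=
        card_biUnion_le
    _ ≤ ∑ s ∈ Finset.Icc (-(d : ℤ)) d, M.card.choose (M.card / 2) :=
        sum_le_sum fun s _ => sub_count M χ h1 s
    _ = _ := by
        rw [sum_const, Int.card_Icc, smul_eq_mul]
        congr 1
        omega

/-- union bound -/
lemma union_count (n d : ℕ) :
    ((fam n).filter fun S => disc S ≤ d).card ≤
      2 ^ (2 ^ n) * ((2 * d + 1) * n.choose (n / 2)) ^ (2 ^ n) := by
  classical
  -- colourings by Bool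
  let chi : (V n → Bool) → V n → ℤ := fun c x => if c x then 1 else -1
  have hchi : ∀ c x, chi c x = 1 ∨ chi c x = -1 := by
    intro c x; simp only [chi]; split_ifs <;> simp
  have hsub : ((fam n).filter fun S => disc S ≤ d) ⊆
      (univ : Finset (V n → Bool)).biUnion fun c =>
        Fintype.piFinset fun v => ((N v).powerset.filter fun T => |∑ x ∈ T, chi c x| ≤ (d : ℤ)) := by
    intro S hS
    simp only [mem_filter, mem_fam] at hS
    obtain ⟨χ, hχ1, hχ2⟩ := disc_spec S
    simp only [mem_biUnion, mem_univ, true_and, Fintype.mem_piFinset, mem_filter, mem_powerset]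
    refine ⟨fun x => decide (χ x = 1), fun v => ⟨hS.1 v, ?_⟩⟩
    have e : ∀ x, chi (fun x => decide (χ x = 1)) x = χ x := by
      intro x
      simp only [chi, decide_eq_true_eq]
      rcases hχ1 x with h | h <;> simp [h]
    simp only [e]
    exact (hχ2 v).trans (by exact_mod_cast hS.2)
  calc _ ≤ _ := card_le_card hsub
    _ ≤ _ := card_biUnion_le
    _ ≤ ∑ _c : V n → Bool, ((2 * d + 1) * n.choose (n / 2)) ^ (2 ^ n) := by
        refine sum_le_sum fun c _ => ?_
        rw [Fintype.card_piFinset]
        calc _ ≤ ∏ _v : V n, ((2 * d + 1) * n.choose (n / 2)) := by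
              refine prod_le_prod' fun v _ => ?_
              have := sub_count_abs (N v) (chi c) (hchi c) d
              rwa [N_card] at this
          _ = _ := by simp
    _ = _ := by simp

end Pool.Agent.Q156.HN
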